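import Mathlib
import Pool.Agent.Q241.AC.B

/-! # Maps between triples -/

set_option autoImplicit false

open Finset

namespace Q265.LO

open Q241.AC (R)

lemma pow_split (y z m : ℕ) (h0 : 0 < y + z) : ∃ Q : ℕ, (y + z) ^ (m + 1) = y ^ (m + 1) + z * Q ∧
    Q ≤ (m + 1) * (y + z) ^ m ∧ 0 < Q := by
  induction m with
  | zero => exact ⟨1, by ring, by simp, one_pos⟩
  | succ m ih =>
    obtain ⟨Q, h1, h2, h3⟩ := ih
    refine ⟨y ^ (m + 1) + (y + z) * Q, ?_, ?_, ?_⟩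
    · calc (y + z) ^ (m + 1 + 1) = (y + z) * (y + z) ^ (m + 1) := by ring
        _ = (y + z) * (y ^ (m + 1) + z * Q) := by rw [h1]
        _ = y ^ (m + 1 + 1) + z * (y ^ (m + 1) + (y + z) * Q) := by ring
    · calc y ^ (m + 1) + (y + z) * Q ≤ (y + z) ^ (m + 1) + (y + z) * ((m + 1) * (y + z) ^ m) := by
            gcongr
            omega
        _ = (m + 1 + 1) * (y + z) ^ (m + 1) := by ring
    · have : 0 < (y + z) * Q := Nat.mul_pos h0 h3
      omega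

/-- the radical of a product -/
lemma R_mul_le {m n : ℕ} (hm : m ≠ 0) (hn : n ≠ 0) : R (m * n) ≤ R m * n := by
  have h1 : (m * n).primeFactors = m.primeFactors ∪ n.primeFactors := Nat.primeFactors_mul hm hn
  have h2 : R (m * n) * ∏ p ∈ m.primeFactors ∩ n.primeFactors, p = R m * R n := by
    unfold R
    rw [h1, prod_union_inter]
  have h3 : 0 < ∏ p ∈ m.primeFactors ∩ n.primeFactors, p := prod_pos fun p hp =>
    (Nat.prime_of_mem_primeFactors (mem_inter.1 hp).1).pos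
  calc R (m * n) ≤ R (m * n) * ∏ p ∈ m.primeFactors ∩ n.primeFactors, p :=
        Nat.le_mul_of_pos_right _ h3
    _ = R m * R n := h2
    _ ≤ R m * n := Nat.mul_le_mul_left _ (Q241.AC.R_le hn)

/-- the first map: `t ↦ t ^ m` -/
theorem map1 {a b c : ℕ} (m : ℕ) (ha : 0 < a) (hb : 0 < b) (hcop : Nat.Coprime a b)
    (hc : a + b = c) : ∃ Q : ℕ, 0 < Q ∧ a ^ (m + 1) + b * Q = c ^ (m + 1) ∧
      Nat.Coprime (a ^ (m + 1)) (b * Q) ∧
      R (a ^ (m + 1) * (b * Q) * c ^ (m + 1)) ≤ R (a * b * c) * ((m + 1) * c ^ m) := by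
  obtain ⟨Q, h1, h2, h3⟩ := pow_split a b m (by omega)
  rw [hc] at h1 h2
  have hc0 : c ≠ 0 := by omega
  refine ⟨Q, h3, h1.symm, ?_, ?_⟩
  · have h4 : Nat.Coprime a c := by
      rw [← hc, add_comm]
      exact (Nat.coprime_add_self_right).2 hcop
    have h5 : Nat.Coprime (a ^ (m + 1)) (c ^ (m + 1)) := Nat.Coprime.pow _ _ h4
    rw [h1] at h5
    have h6 : Nat.Coprime (a ^ (m + 1)) (b * Q + a ^ (m + 1)) := by
      rwa [add_comm (b * Q)]
    exact (Nat.coprime_add_self_right).1 h6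
  · have hp : (a ^ (m + 1) * (b * Q) * c ^ (m + 1)).primeFactors = (a * b * c * Q).primeFactors := by
      rw [Nat.primeFactors_mul (by positivity) (by positivity),
        Nat.primeFactors_mul (by positivity) (by positivity),
        Nat.primeFactors_mul (by positivity) (by positivity),
        Nat.primeFactors_mul (by positivity) (by positivity),
        Nat.primeFactors_mul (by positivity) (by positivity),
        Nat.primeFactors_mul (by positivity) (by positivity),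
        Nat.primeFactors_pow _ (by omega), Nat.primeFactors_pow _ (by omega)]
      ext p
      simp only [mem_union]
      tauto
    have hR : R (a ^ (m + 1) * (b * Q) * c ^ (m + 1)) = R (a * b * c * Q) := by
      unfold R
      rw [hp]
    rw [hR]
    exact (R_mul_le (by positivity) h3.ne').trans (Nat.mul_le_mul_left _ h2)

/-- the second map: `t ↦ (1 - t ^ m) ^ n` -/
theorem map2 {a b c : ℕ} (m n : ℕ) (ha : 0 < a) (hb : 0 < b) (hcop : Nat.Coprime a b)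
    (hc : a + b = c) : ∃ a' b' : ℕ, 0 < a' ∧ 0 < b' ∧ Nat.Coprime a' b' ∧
      a' + b' = c ^ ((m + 1) * (n + 1)) ∧ a' = (c ^ (m + 1) - a ^ (m + 1)) ^ (n + 1) ∧
      R (a' * b' * c ^ ((m + 1) * (n + 1))) ≤
        R (a * b * c) * ((m + 1) * (n + 1) * c ^ ((m + 1) * (n + 1) - 1)) := by
  obtain ⟨Q, g1, g2, g3, g4⟩ := map1 m ha hb hcop hc
  have hc0 : c ≠ 0 := by omega
  obtain ⟨P, h1, h2, h3, h4⟩ := map1 (a := b * Q) (b := a ^ (m + 1)) (c := c ^ (m + 1)) n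
    (Nat.mul_pos hb g1) (pow_pos ha (m + 1)) g3.symm (by rw [add_comm]; exact g2)
  have e1 : (c ^ (m + 1)) ^ (n + 1) = c ^ ((m + 1) * (n + 1)) := by rw [← pow_mul]
  rw [e1] at h2 h4
  refine ⟨(b * Q) ^ (n + 1), a ^ (m + 1) * P, by positivity, by positivity, h3, h2, ?_, ?_⟩
  · congr 1
    omega
  · refine h4.trans ?_
    have h5 : R (b * Q * a ^ (m + 1) * c ^ (m + 1)) ≤ R (a * b * c) * ((m + 1) * c ^ m) := by
      rw [show b * Q * a ^ (m + 1) * c ^ (m + 1) = a ^ (m + 1) * (b * Q) * c ^ (m + 1) by ring]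
      exact g4
    calc R (b * Q * a ^ (m + 1) * c ^ (m + 1)) * ((n + 1) * (c ^ (m + 1)) ^ n)
        ≤ R (a * b * c) * ((m + 1) * c ^ m) * ((n + 1) * (c ^ (m + 1)) ^ n) := by gcongr
      _ = R (a * b * c) * ((m + 1) * (n + 1) * (c ^ m * (c ^ (m + 1)) ^ n)) := by ring
      _ = _ := by
        rw [← pow_mul, ← pow_add]
        congr 3
        have : (m + 1) * (n + 1) = (m + (m + 1) * n) + 1 := by ring
        omega

/-- the inequality for the members of a set -/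
def On (T : Set (ℕ × ℕ × ℕ)) : Prop :=
  ∀ ε : ℝ, 0 < ε → ∃ κ : ℝ, ∀ t : ℕ × ℕ × ℕ, t ∈ T →
    (t.2.2 : ℝ) ≤ κ * (R (t.1 * t.2.1 * t.2.2) : ℝ) ^ (1 + ε)

/-- the transfer of the inequality by maps of bounded degree -/
theorem back {T T' : Set (ℕ × ℕ × ℕ)} (D : ℕ) (hpos : ∀ t ∈ T, 1 ≤ t.2.2)
    (h : ∀ t ∈ T, ∃ t' ∈ T', ∃ d : ℕ, 1 ≤ d ∧ d ≤ D ∧ t'.2.2 = t.2.2 ^ d ∧
      R (t'.1 * t'.2.1 * t'.2.2) ≤ R (t.1 * t.2.1 * t.2.2) * (D * t.2.2 ^ (d - 1)))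
    (hT' : On T') : On T := by
  intro ε hε
  obtain ⟨δ, hδ⟩ : ∃ δ : ℝ, δ = ε / (1 + (1 + ε) * D) := ⟨_, rfl⟩
  have hD0 : (0 : ℝ) ≤ D := Nat.cast_nonneg _
  have hδ0 : 0 < δ := by rw [hδ]; positivity
  have hδ1 : δ * (1 + (1 + ε) * D) = ε := by
    rw [hδ]
    field_simp
  have hδD : 0 < 1 - D * δ := by
    have h1 : D * δ * (1 + ε) < 1 + ε := by nlinarith
    nlinarith
  obtain ⟨κ, hκ⟩ := hT' δ hδ0
  obtain ⟨K, hK⟩ : ∃ K : ℝ, K = max (κ * (D : ℝ) ^ (1 + δ)) 1 := ⟨_, rfl⟩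
  have hK1 : 1 ≤ K := by rw [hK]; exact le_max_right _ _
  have hK0 : 0 < K := by linarith
  refine ⟨K ^ (1 / (1 - D * δ)), fun t ht => ?_⟩
  obtain ⟨t', ht', d, hd1, hdD, hc, hR⟩ := h t ht
  obtain ⟨c, hcc⟩ : ∃ c : ℝ, c = (t.2.2 : ℝ) := ⟨_, rfl⟩
  obtain ⟨ρ, hρ⟩ : ∃ ρ : ℝ, ρ = (R (t.1 * t.2.1 * t.2.2) : ℝ) := ⟨_, rfl⟩
  rw [← hcc, ← hρ]
  have hc1 : 1 ≤ c := by rw [hcc]; exact_mod_cast hpos t ht
  have hcp : 0 < c := by linarith
  have hρ1 : 1 ≤ ρ := by rw [hρ]; exact Q241.AC.R_one_le _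
  have hρ0 : 0 < ρ := by linarith
  have h1 := hκ t' ht'
  have hRr : (R (t'.1 * t'.2.1 * t'.2.2) : ℝ) ≤ ρ * (D * c ^ (d - 1)) := by
    rw [hρ, hcc]
    exact_mod_cast hR
  have hD1 : (1 : ℝ) ≤ D := by exact_mod_cast hd1.trans hdD
  have hDp : (0 : ℝ) < D := by linarith
  have hR1 : (1 : ℝ) ≤ R (t'.1 * t'.2.1 * t'.2.2) := Q241.AC.R_one_le _
  have hcd : c ^ d ≤ κ * (R (t'.1 * t'.2.1 * t'.2.2) : ℝ) ^ (1 + δ) := by
    have : (t'.2.2 : ℝ) = c ^ d := by rw [hc, hcc]; push_cast; rfl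
    rw [← this]
    exact h1
  have hκ0 : 0 < κ := by
    by_contra hcon
    push Not at hcon
    have h2 : 0 < c ^ d := pow_pos hcp d
    have h3 : 0 < (R (t'.1 * t'.2.1 * t'.2.2) : ℝ) ^ (1 + δ) := Real.rpow_pos_of_pos (by linarith) _
    nlinarith
  have hmain : c ^ d ≤ K * ρ ^ (1 + δ) * c ^ ((d - 1 : ℝ) * (1 + δ)) := by
    calc c ^ d ≤ κ * (R (t'.1 * t'.2.1 * t'.2.2) : ℝ) ^ (1 + δ) := hcd
      _ ≤ κ * (ρ * (D * c ^ (d - 1))) ^ (1 + δ) := by gcongr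
      _ = κ * (D : ℝ) ^ (1 + δ) * ρ ^ (1 + δ) * (c ^ (d - 1)) ^ (1 + δ) := by
        rw [Real.mul_rpow hρ0.le (by positivity), Real.mul_rpow hDp.le (by positivity)]
        ring
      _ ≤ K * ρ ^ (1 + δ) * (c ^ (d - 1)) ^ (1 + δ) := by
        gcongr
        rw [hK]
        exact le_max_left _ _
      _ = K * ρ ^ (1 + δ) * c ^ ((d - 1 : ℝ) * (1 + δ)) := by
        congr 1
        rw [← Real.rpow_natCast c (d - 1), ← Real.rpow_mul hcp.le, Nat.cast_sub hd1]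
        norm_num
  obtain ⟨e, he⟩ : ∃ e : ℝ, e = 1 - (d - 1 : ℝ) * δ := ⟨_, rfl⟩
  have hd1r : (1 : ℝ) ≤ d := by exact_mod_cast hd1
  have hdDr : (d : ℝ) ≤ D := by exact_mod_cast hdD
  have hedge : 1 - D * δ ≤ e := by
    rw [he]
    nlinarith
  have he0 : 0 < e := by linarith
  have hce : c ^ e ≤ K * ρ ^ (1 + δ) := by
    have h2 : c ^ d = c ^ e * c ^ ((d - 1 : ℝ) * (1 + δ)) := by
      rw [← Real.rpow_add hcp, ← Real.rpow_natCast, he]
      congr 1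
      ring
    rw [h2] at hmain
    exact le_of_mul_le_mul_right hmain (Real.rpow_pos_of_pos hcp _)
  have hexp : (1 + δ) * (1 / e) ≤ 1 + ε := by
    rw [mul_one_div, div_le_iff₀ he0]
    have h3 : 1 + δ ≤ (1 + ε) * (1 - D * δ) := by
      have : (1 + ε) * (1 - D * δ) = 1 + ε - (1 + ε) * D * δ := by ring
      rw [this]
      linarith
    calc 1 + δ ≤ (1 + ε) * (1 - D * δ) := h3
      _ ≤ (1 + ε) * e := by gcongr
  calc c = (c ^ e) ^ (1 / e) := by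
        rw [← Real.rpow_mul hcp.le, mul_one_div_cancel he0.ne', Real.rpow_one]
    _ ≤ (K * ρ ^ (1 + δ)) ^ (1 / e) :=
        Real.rpow_le_rpow (Real.rpow_nonneg hcp.le _) hce (by positivity)
    _ = K ^ (1 / e) * ρ ^ ((1 + δ) * (1 / e)) := by
        rw [Real.mul_rpow hK0.le (by positivity), ← Real.rpow_mul hρ0.le]
    _ ≤ K ^ (1 / (1 - D * δ)) * ρ ^ (1 + ε) := by
        gcongr

end Q265.LO
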