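import Mathlib
import Pool.Agent.Q265.LO.Map

/-! # Localisation -/

set_option autoImplicit false

open Finset

namespace Q265.LO

open Q241.AC (R)

/-- coprime positive integers with `a + b = c` -/
def IsTriple (t : ℕ × ℕ × ℕ) : Prop :=
  0 < t.1 ∧ 0 < t.2.1 ∧ Nat.Coprime t.1 t.2.1 ∧ t.1 + t.2.1 = t.2.2

/-- the triples with the ratio `a / c` in `U` -/
def Ratio (U : Set ℝ) : Set (ℕ × ℕ × ℕ) := {t | IsTriple t ∧ (t.1 : ℝ) / t.2.2 ∈ U}

/-- the triples with `a`, `c` perfect `k`-th powers -/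
def Pw (k : ℕ) : Set (ℕ × ℕ × ℕ) := {t | ∃ x y : ℕ, t.1 = x ^ k ∧ t.2.2 = y ^ k}

lemma reach {u v δ : ℝ} (hu : 0 < u) (huv : u < v) (hv : v ≤ 1) (hδ : 0 < δ) (hδ1 : δ < 1)
    {k : ℕ} (hk : 1 ≤ k) : ∃ m N : ℕ, ∀ t : ℝ, δ ≤ t → t ≤ 1 - δ → ∃ i : ℕ, 1 ≤ i ∧ i ≤ N ∧
      (1 - t ^ (m + 1)) ^ (k * i) ∈ Set.Ioo u v := by
  have hv0 : 0 < v := hu.trans huv
  obtain ⟨q, hq⟩ : ∃ q : ℝ, q = u / v := ⟨_, rfl⟩
  have hq0 : 0 < q := by rw [hq]; positivity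
  have hq1 : q < 1 := by rw [hq, div_lt_one hv0]; exact huv
  have hkr : (1 : ℝ) ≤ k := by exact_mod_cast hk
  obtain ⟨x, hx⟩ : ∃ x : ℝ, x = (1 - q) / (2 * k) := ⟨_, rfl⟩
  have hx0 : 0 < x := by rw [hx]; exact div_pos (by linarith) (by linarith)
  have hkx : k * x = (1 - q) / 2 := by rw [hx]; field_simp
  have hx1 : x < 1 := by nlinarith
  have hxk : q < (1 - x) ^ k := by
    have h1 := one_add_mul_le_pow (a := -x) (by linarith) k
    rw [← sub_eq_add_neg] at h1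
    have h2 : (1 : ℝ) + k * -x = 1 - (1 - q) / 2 := by rw [← hkx]; ring
    rw [h2] at h1
    linarith
  obtain ⟨m, hm⟩ := exists_pow_lt_of_lt_one hx0 (by linarith : 1 - δ < 1)
  have hδm : 0 < δ ^ (m + 1) := pow_pos hδ _
  have hδm1 : δ ^ (m + 1) ≤ 1 := pow_le_one₀ hδ.le hδ1.le
  obtain ⟨N, hN⟩ := exists_pow_lt_of_lt_one hv0
    (by linarith : 1 - δ ^ (m + 1) < 1)
  refine ⟨m, N, fun t h1 h2 => ?_⟩
  obtain ⟨s, hs⟩ : ∃ s : ℝ, s = 1 - t ^ (m + 1) := ⟨_, rfl⟩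
  rw [← hs]
  have ht0 : 0 < t := by linarith
  have ht1 : t < 1 := by linarith
  have hs1 : 1 - x ≤ s := by
    have h3 : t ^ (m + 1) ≤ x := by
      calc t ^ (m + 1) ≤ t ^ m := pow_le_pow_of_le_one ht0.le ht1.le (by omega)
        _ ≤ (1 - δ) ^ m := pow_le_pow_left₀ ht0.le h2 m
        _ ≤ x := hm.le
    linarith
  have hs2 : s ≤ 1 - δ ^ (m + 1) := by
    have h3 : δ ^ (m + 1) ≤ t ^ (m + 1) := pow_le_pow_left₀ hδ.le h1 _
    linarith
  have hs0 : 0 < s := by linarith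
  have hex : ∃ i : ℕ, (s ^ k) ^ i < v := by
    refine ⟨N, ?_⟩
    calc (s ^ k) ^ N = (s ^ N) ^ k := by rw [← pow_mul, ← pow_mul, mul_comm]
      _ ≤ (s ^ N) ^ 1 := pow_le_pow_of_le_one (by positivity)
          (pow_le_one₀ hs0.le (by linarith)) hk
      _ = s ^ N := pow_one _
      _ ≤ (1 - δ ^ (m + 1)) ^ N := pow_le_pow_left₀ hs0.le hs2 N
      _ < v := hN
  classical
  obtain ⟨i, hi⟩ : ∃ i, i = Nat.find hex := ⟨_, rfl⟩
  have hi1 : (s ^ k) ^ i < v := by rw [hi]; exact Nat.find_spec hex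
  have hiN : i ≤ N := by
    rw [hi]
    apply Nat.find_min' hex
    calc (s ^ k) ^ N = (s ^ N) ^ k := by rw [← pow_mul, ← pow_mul, mul_comm]
      _ ≤ (s ^ N) ^ 1 := pow_le_pow_of_le_one (by positivity)
          (pow_le_one₀ hs0.le (by linarith)) hk
      _ = s ^ N := pow_one _
      _ ≤ (1 - δ ^ (m + 1)) ^ N := pow_le_pow_left₀ hs0.le hs2 N
      _ < v := hN
  have hi0 : 1 ≤ i := by
    rcases Nat.eq_zero_or_pos i with h3 | h3
    · rw [h3, pow_zero] at hi1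
      linarith
    · exact h3
  have hi2 : v ≤ (s ^ k) ^ (i - 1) := by
    by_contra hcon
    push Not at hcon
    have := Nat.find_min' hex hcon
    omega
  refine ⟨i, hi0, hiN, ?_, ?_⟩
  · rw [pow_mul]
    have h3 : (s ^ k) ^ i = (s ^ k) ^ (i - 1) * s ^ k := by
      rw [← pow_succ]
      congr 1
      omega
    rw [h3]
    have h4 : q < s ^ k := lt_of_lt_of_le hxk (pow_le_pow_left₀ (by linarith) hs1 k)
    calc u = v * q := by rw [hq]; field_simp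
      _ < v * s ^ k := by gcongr
      _ ≤ (s ^ k) ^ (i - 1) * s ^ k := by gcongr
  · rw [pow_mul]
    exact hi1

/-- from a small interval to the balanced triples -/
theorem interior {u v : ℝ} (hu : 0 < u) (huv : u < v) (hv : v ≤ 1) {k : ℕ} (hk : 1 ≤ k)
    (h : On (Pw k ∩ Ratio (Set.Ioo u v))) {δ : ℝ} (hδ : 0 < δ) :
    On (Ratio (Set.Icc δ (1 - δ))) := by
  rcases le_or_gt 1 δ with hδ1 | hδ1
  · -- the set is empty
    intro ε _
    refine ⟨0, ?_⟩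
    rintro t ⟨ht, h1, h2⟩
    exfalso
    linarith
  obtain ⟨m, N, hmN⟩ := reach hu huv hv hδ hδ1 hk
  refine back ((m + 1) * (k * N)) ?_ ?_ h
  · rintro t ⟨⟨h1, h2, h3, h4⟩, -⟩
    omega
  · rintro ⟨a, b, c⟩ ⟨⟨h1, h2, h3, h4⟩, h5, h6⟩
    simp only at h1 h2 h3 h4 h5 h6
    have hc0 : 0 < c := by omega
    have hcr : (0 : ℝ) < c := by exact_mod_cast hc0
    obtain ⟨i, hi1, hi2, hi3⟩ := hmN _ h5 h6
    obtain ⟨n, hn⟩ : ∃ n : ℕ, k * i = n + 1 := ⟨k * i - 1, by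
      have : 1 ≤ k * i := Nat.one_le_iff_ne_zero.2 (by positivity)
      omega⟩
    obtain ⟨a', b', g1, g2, g3, g4, g5, g6⟩ := map2 m n h1 h2 h3 h4
    have hle : (m + 1) * (n + 1) ≤ (m + 1) * (k * N) := by
      rw [← hn]
      exact Nat.mul_le_mul_left _ (Nat.mul_le_mul_left _ hi2)
    refine ⟨(a', b', c ^ ((m + 1) * (n + 1))), ⟨?_, ⟨g1, g2, g3, g4⟩, ?_⟩, (m + 1) * (n + 1),
      Nat.one_le_iff_ne_zero.2 (by positivity), hle, rfl, ?_⟩
    · refine ⟨(c ^ (m + 1) - a ^ (m + 1)) ^ i, c ^ ((m + 1) * i), ?_, ?_⟩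
      · show a' = _
        rw [g5, ← pow_mul, mul_comm i k, hn]
      · show c ^ ((m + 1) * (n + 1)) = _
        rw [← pow_mul, ← hn]
        congr 1
        ring
    · show ((a' : ℕ) : ℝ) / ((c ^ ((m + 1) * (n + 1)) : ℕ) : ℝ) ∈ Set.Ioo u v
      have hac : a ^ (m + 1) ≤ c ^ (m + 1) := Nat.pow_le_pow_left (by omega) _
      have e1 : ((a' : ℕ) : ℝ) = ((c : ℝ) ^ (m + 1) - (a : ℝ) ^ (m + 1)) ^ (n + 1) := by
        rw [g5]
        push_cast [Nat.cast_sub hac]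
        rfl
      have e2 : ((a' : ℕ) : ℝ) / ((c ^ ((m + 1) * (n + 1)) : ℕ) : ℝ) =
          (1 - ((a : ℝ) / c) ^ (m + 1)) ^ (k * i) := by
        rw [e1, hn]
        push_cast
        rw [pow_mul, ← div_pow, div_pow (a : ℝ), sub_div, div_self (by positivity)]
      rw [e2]
      exact hi3
    · show R (a' * b' * c ^ ((m + 1) * (n + 1))) ≤
        R (a * b * c) * ((m + 1) * (k * N) * c ^ ((m + 1) * (n + 1) - 1))
      exact g6.trans (Nat.mul_le_mul_left _ (Nat.mul_le_mul_right _ hle))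

/-- from a neighbourhood of a cusp to all triples -/
theorem cusp {δ : ℝ} (hδ : 0 < δ) {k : ℕ} (hk : 1 ≤ k)
    (h : On (Pw k ∩ Ratio (Set.Ioo 0 δ))) : On {t | IsTriple t} := by
  obtain ⟨j, hj⟩ := exists_pow_lt_of_lt_one hδ (by norm_num : (1 / 2 : ℝ) < 1)
  obtain ⟨m, hm⟩ : ∃ m : ℕ, k * (j + 1) = m + 1 := ⟨k * (j + 1) - 1, by
    have : 1 ≤ k * (j + 1) := Nat.one_le_iff_ne_zero.2 (by positivity)
    omega⟩
  have core : On {t | IsTriple t ∧ t.1 ≤ t.2.1} := by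
    refine back (m + 1) ?_ ?_ h
    · rintro t ⟨⟨h1, h2, h3, h4⟩, -⟩
      omega
    · rintro ⟨a, b, c⟩ ⟨⟨h1, h2, h3, h4⟩, h5⟩
      simp only at h1 h2 h3 h4 h5
      have hc0 : 0 < c := by omega
      have hcr : (0 : ℝ) < c := by exact_mod_cast hc0
      obtain ⟨Q, g1, g2, g3, g4⟩ := map1 m h1 h2 h3 h4
      refine ⟨(a ^ (m + 1), b * Q, c ^ (m + 1)), ⟨?_, ⟨by positivity, by positivity, g3, g2⟩, ?_⟩,
        m + 1, by omega, le_rfl, rfl, ?_⟩
      · refine ⟨a ^ (j + 1), c ^ (j + 1), ?_, ?_⟩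
        · show a ^ (m + 1) = _
          rw [← pow_mul, mul_comm (j + 1), hm]
        · show c ^ (m + 1) = _
          rw [← pow_mul, mul_comm (j + 1), hm]
      · show ((a ^ (m + 1) : ℕ) : ℝ) / ((c ^ (m + 1) : ℕ) : ℝ) ∈ Set.Ioo 0 δ
        push_cast
        rw [← div_pow]
        have hac : (a : ℝ) / c ≤ 1 / 2 := by
          rw [div_le_iff₀ hcr]
          have : 2 * a ≤ c := by omega
          have : (2 : ℝ) * a ≤ c := by exact_mod_cast this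
          linarith
        have ha0 : (0 : ℝ) < a := by exact_mod_cast h1
        refine ⟨by positivity, ?_⟩
        have hjm : j ≤ m + 1 := by
          rw [← hm]
          nlinarith
        calc ((a : ℝ) / c) ^ (m + 1) ≤ (1 / 2) ^ (m + 1) := pow_le_pow_left₀ (by positivity) hac _
          _ ≤ (1 / 2) ^ j := pow_le_pow_of_le_one (by norm_num) (by norm_num) hjm
          _ < δ := hj
      · show R (a ^ (m + 1) * (b * Q) * c ^ (m + 1)) ≤ R (a * b * c) * ((m + 1) * c ^ (m + 1 - 1))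
        exact g4
  intro ε hε
  obtain ⟨κ, hκ⟩ := core ε hε
  refine ⟨κ, ?_⟩
  rintro ⟨a, b, c⟩ ⟨h1, h2, h3, h4⟩
  simp only at h1 h2 h3 h4
  rcases le_total a b with h5 | h5
  · exact hκ (a, b, c) ⟨⟨h1, h2, h3, h4⟩, h5⟩
  · have := hκ (b, a, c) ⟨⟨h2, h1, h3.symm, by simp only; omega⟩, h5⟩
    simp only at this ⊢
    rwa [mul_comm b a] at this

end Q265.LO
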