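import Mathlib
import Pool.Agent.Q265.LO.Loc
import Pool.Agent.Q241.AC.C

/-! # Counting and large members -/

set_option autoImplicit false

open Finset

namespace Q265.LO

open Q241.AC (R)

lemma grow {κ : ℝ} (hκ : 0 < κ) (M : ℝ) : ∃ Y : ℝ, ∀ y : ℝ, Y ≤ y → 1 < y ∧ 1 < Real.log y ∧
    M ≤ κ * √y / Real.log y := by
  obtain ⟨q, hq⟩ : ∃ q : ℝ, q = (4 * |M| / κ) ^ 4 := ⟨_, rfl⟩
  have hq0 : 0 ≤ q := by rw [hq]; positivity
  refine ⟨q + Real.exp 1 + 1, fun y hy => ?_⟩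
  have he1 : (1 : ℝ) < Real.exp 1 := by
    have := Real.add_one_le_exp (1 : ℝ)
    linarith
  have hye : Real.exp 1 < y := by linarith
  have hy1 : 1 < y := by linarith
  have hy0 : 0 < y := by linarith
  have hly : 1 < Real.log y := by
    rw [Real.lt_log_iff_exp_lt hy0]
    exact hye
  refine ⟨hy1, hly, ?_⟩
  rw [le_div_iff₀ (by linarith)]
  have k1 : Real.log y ≤ y ^ (1 / 4 : ℝ) / (1 / 4) := Real.log_le_rpow_div hy0.le (by norm_num)
  have k2 : √y = y ^ (1 / 4 : ℝ) * y ^ (1 / 4 : ℝ) := by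
    rw [← Real.rpow_add hy0, Real.sqrt_eq_rpow]
    norm_num
  have k3 : 4 * |M| / κ ≤ y ^ (1 / 4 : ℝ) := by
    calc 4 * |M| / κ = ((4 * |M| / κ) ^ 4) ^ (1 / 4 : ℝ) := by
          rw [← Real.rpow_natCast, ← Real.rpow_mul (by positivity)]
          norm_num
      _ ≤ y ^ (1 / 4 : ℝ) := by
          rw [← hq]
          exact Real.rpow_le_rpow hq0 (by linarith) (by norm_num)
  rw [div_le_iff₀ hκ] at k3
  have k4 : 0 ≤ y ^ (1 / 4 : ℝ) := Real.rpow_nonneg hy0.le _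
  rw [k2]
  calc M * Real.log y ≤ |M| * Real.log y :=
        mul_le_mul_of_nonneg_right (le_abs_self M) (by linarith)
    _ ≤ |M| * (y ^ (1 / 4 : ℝ) / (1 / 4)) := by gcongr
    _ = (4 * |M|) * y ^ (1 / 4 : ℝ) := by ring
    _ ≤ (y ^ (1 / 4 : ℝ) * κ) * y ^ (1 / 4 : ℝ) := by gcongr
    _ = _ := by ring

/-- large members near a cusp -/
theorem large {δ : ℝ} (hδ : 0 < δ) {k : ℕ} (hk : 1 ≤ k) : ∃ κ : ℝ, 0 < κ ∧ ∀ X : ℝ,
    ∃ t ∈ Pw k ∩ Ratio (Set.Ioo 0 δ), X ≤ t.2.2 ∧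
      (R (t.1 * t.2.1 * t.2.2) : ℝ) *
        Real.exp (κ * √(Real.log t.2.2) / Real.log (Real.log t.2.2)) < t.2.2 := by
  obtain ⟨κ, hκ, hlow⟩ := Q241.AC.lower one_pos
  obtain ⟨j, hj⟩ := exists_pow_lt_of_lt_one hδ (by norm_num : (1 / 2 : ℝ) < 1)
  obtain ⟨m, hm⟩ : ∃ m : ℕ, k * (j + 1) = m + 1 := ⟨k * (j + 1) - 1, by
    have : 1 ≤ k * (j + 1) := Nat.one_le_iff_ne_zero.2 (by positivity)
    omega⟩
  have hm0 : (0 : ℝ) < (m : ℝ) + 1 := by positivity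
  have hsm : 0 < √((m : ℝ) + 1) := Real.sqrt_pos.2 hm0
  refine ⟨κ / (2 * √((m : ℝ) + 1)), by positivity, fun X => ?_⟩
  obtain ⟨Y, hY⟩ := grow (κ := κ / 2) (by positivity) (Real.log (m + 1))
  obtain ⟨a₀, b₀, c, h1', h2', h3', h4', -, h6, h7'⟩ := hlow (max (max 1 X) (Real.exp Y))
  -- order the two summands
  obtain ⟨a, b, h1, h2, h3, h4, h5, h7⟩ : ∃ a b : ℕ, 0 < a ∧ 0 < b ∧ Nat.Coprime a b ∧ a + b = c ∧
      a ≤ b ∧ (R (a * b * c) : ℝ) * Real.exp (κ * √(Real.log c) / Real.log (Real.log c)) < c := by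
    rcases le_total a₀ b₀ with h | h
    · exact ⟨a₀, b₀, h1', h2', h3', h4', h, h7'⟩
    · exact ⟨b₀, a₀, h2', h1', h3'.symm, by omega, h, by rwa [mul_comm b₀ a₀]⟩
  have hc1 : (1 : ℝ) ≤ c := ((le_max_left _ _).trans (le_max_left _ _)).trans h6
  have hcX : X ≤ c := ((le_max_right _ _).trans (le_max_left _ _)).trans h6
  have hcY : Real.exp Y ≤ c := (le_max_right _ _).trans h6
  have hcp : (0 : ℝ) < c := by linarith
  obtain ⟨y, hy⟩ : ∃ y : ℝ, y = Real.log c := ⟨_, rfl⟩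
  have hyY : Y ≤ y := by
    rw [hy, Real.le_log_iff_exp_le hcp]
    exact hcY
  obtain ⟨hy1, hly, hgr⟩ := hY y hyY
  have hy0 : 0 < y := by linarith
  obtain ⟨φ, hφ⟩ : ∃ φ : ℝ, φ = κ * √y / Real.log y := ⟨_, rfl⟩
  have hgr' : Real.log (m + 1) ≤ φ / 2 := by
    refine hgr.trans_eq ?_
    rw [hφ]
    ring
  rw [← hy, ← hφ] at h7
  obtain ⟨Q, g1, g2, g3, g4⟩ := map1 m h1 h2 h3 h4
  have hac : (a : ℝ) / c ≤ 1 / 2 := by
    rw [div_le_iff₀ hcp]
    have : 2 * a ≤ c := by omega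
    have : (2 : ℝ) * a ≤ c := by exact_mod_cast this
    linarith
  have ha0 : (0 : ℝ) < a := by exact_mod_cast h1
  refine ⟨(a ^ (m + 1), b * Q, c ^ (m + 1)), ⟨⟨a ^ (j + 1), c ^ (j + 1), ?_, ?_⟩,
    ⟨by positivity, by positivity, g3, g2⟩, ?_⟩, ?_, ?_⟩
  · show a ^ (m + 1) = _
    rw [← pow_mul, mul_comm (j + 1), hm]
  · show c ^ (m + 1) = _
    rw [← pow_mul, mul_comm (j + 1), hm]
  · show ((a ^ (m + 1) : ℕ) : ℝ) / ((c ^ (m + 1) : ℕ) : ℝ) ∈ Set.Ioo 0 δ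
    push_cast
    rw [← div_pow]
    refine ⟨by positivity, ?_⟩
    have hjm : j ≤ m + 1 := by
      rw [← hm]
      nlinarith
    calc ((a : ℝ) / c) ^ (m + 1) ≤ (1 / 2) ^ (m + 1) := pow_le_pow_left₀ (by positivity) hac _
      _ ≤ (1 / 2) ^ j := pow_le_pow_of_le_one (by norm_num) (by norm_num) hjm
      _ < δ := hj
  · show X ≤ ((c ^ (m + 1) : ℕ) : ℝ)
    push_cast
    refine hcX.trans ?_
    calc (c : ℝ) = (c : ℝ) ^ 1 := (pow_one _).symm
      _ ≤ (c : ℝ) ^ (m + 1) := pow_le_pow_right₀ hc1 (by omega)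
  · show (R (a ^ (m + 1) * (b * Q) * c ^ (m + 1)) : ℝ) *
      Real.exp (κ / (2 * √((m : ℝ) + 1)) * √(Real.log ((c ^ (m + 1) : ℕ) : ℝ)) /
        Real.log (Real.log ((c ^ (m + 1) : ℕ) : ℝ))) < ((c ^ (m + 1) : ℕ) : ℝ)
    push_cast
    have e1 : Real.log ((c : ℝ) ^ (m + 1)) = ((m : ℝ) + 1) * y := by
      rw [Real.log_pow, ← hy]
      push_cast
      ring
    rw [e1]
    have hexp : κ / (2 * √((m : ℝ) + 1)) * √(((m : ℝ) + 1) * y) / Real.log (((m : ℝ) + 1) * y) ≤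
        φ / 2 := by
      have k1 : Real.log y ≤ Real.log (((m : ℝ) + 1) * y) := by
        apply Real.log_le_log hy0
        have : (0 : ℝ) ≤ m := Nat.cast_nonneg m
        nlinarith
      rw [div_le_iff₀ (by linarith), Real.sqrt_mul hm0.le]
      have k2 : κ / (2 * √((m : ℝ) + 1)) * (√((m : ℝ) + 1) * √y) = φ / 2 * Real.log y := by
        rw [hφ]
        have : Real.log y ≠ 0 := by linarith
        field_simp
      rw [k2]
      have k3 : 0 ≤ φ / 2 := by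
        have : 0 ≤ Real.log ((m : ℝ) + 1) := Real.log_nonneg (by
          have : (0 : ℝ) ≤ m := Nat.cast_nonneg m
          linarith)
        linarith
      gcongr
    have hR : (R (a ^ (m + 1) * (b * Q) * c ^ (m + 1)) : ℝ) ≤
        R (a * b * c) * (((m : ℝ) + 1) * (c : ℝ) ^ m) := by exact_mod_cast g4
    have hexp2 : ((m : ℝ) + 1) * Real.exp (φ / 2) ≤ Real.exp φ := by
      calc ((m : ℝ) + 1) * Real.exp (φ / 2) = Real.exp (Real.log (m + 1)) * Real.exp (φ / 2) := by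
            rw [Real.exp_log hm0]
        _ = Real.exp (Real.log (m + 1) + φ / 2) := (Real.exp_add _ _).symm
        _ ≤ Real.exp φ := Real.exp_le_exp.2 (by linarith)
    calc (R (a ^ (m + 1) * (b * Q) * c ^ (m + 1)) : ℝ) *
          Real.exp (κ / (2 * √((m : ℝ) + 1)) * √(((m : ℝ) + 1) * y) / Real.log (((m : ℝ) + 1) * y))
        ≤ (R (a * b * c) * (((m : ℝ) + 1) * (c : ℝ) ^ m)) * Real.exp (φ / 2) := by
          gcongr
      _ = (R (a * b * c) * (((m : ℝ) + 1) * Real.exp (φ / 2))) * (c : ℝ) ^ m := by ring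
      _ ≤ (R (a * b * c) * Real.exp φ) * (c : ℝ) ^ m := by gcongr
      _ < c * (c : ℝ) ^ m := by gcongr
      _ = (c : ℝ) ^ (m + 1) := by ring

/-- the number of the triples with `a`, `c` perfect `k`-th powers -/
theorem count {k : ℕ} (hk : 1 ≤ k) {X : ℝ} (hX : 1 ≤ X) :
    {t ∈ Pw k ∩ {t | IsTriple t} | (t.2.2 : ℝ) ≤ X}.Finite ∧
      ({t ∈ Pw k ∩ {t | IsTriple t} | (t.2.2 : ℝ) ≤ X}.ncard : ℝ) ≤ X ^ (2 / (k : ℝ)) := by
  classical
  have hk0 : (0 : ℝ) < k := by exact_mod_cast hk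
  obtain ⟨n, hn⟩ : ∃ n : ℕ, n = ⌊X ^ (1 / (k : ℝ))⌋₊ := ⟨_, rfl⟩
  set F : Finset (ℕ × ℕ × ℕ) := ((Icc 1 n) ×ˢ (Icc 1 n)).image
    (fun p => (p.1 ^ k, p.2 ^ k - p.1 ^ k, p.2 ^ k)) with hF
  have hsub : {t ∈ Pw k ∩ {t | IsTriple t} | (t.2.2 : ℝ) ≤ X} ⊆ (F : Set (ℕ × ℕ × ℕ)) := by
    rintro ⟨a, b, c⟩ ⟨⟨⟨x, y, h1, h2⟩, h3, h4, h5, h6⟩, h7⟩
    simp only at h1 h2 h3 h4 h5 h6 h7
    rw [hF, coe_image]
    refine ⟨(x, y), ?_, ?_⟩
    · have hx0 : 0 < x := by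
        rcases Nat.eq_zero_or_pos x with h | h
        · rw [h, zero_pow (by omega)] at h1
          omega
        · exact h
      have hyn : y ≤ n := by
        rw [hn]
        apply Nat.le_floor
        rw [h2] at h7
        push_cast at h7
        calc (y : ℝ) = ((y : ℝ) ^ k) ^ (1 / (k : ℝ)) := by
              rw [← Real.rpow_natCast, ← Real.rpow_mul (Nat.cast_nonneg y),
                mul_one_div_cancel hk0.ne', Real.rpow_one]
          _ ≤ X ^ (1 / (k : ℝ)) := Real.rpow_le_rpow (by positivity) h7 (by positivity)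
      have hxy : x < y := by
        by_contra hcon
        push Not at hcon
        have := Nat.pow_le_pow_left hcon k
        omega
      simp only [coe_product, coe_Icc, Set.mem_prod, Set.mem_Icc]
      omega
    · simp only [Prod.mk.injEq]
      omega
  have hcard : (F.card : ℝ) ≤ X ^ (2 / (k : ℝ)) := by
    have h1 : F.card ≤ n * n := by
      refine card_image_le.trans ?_
      rw [card_product, Nat.card_Icc, Nat.add_sub_cancel]
    have h2 : (n : ℝ) ≤ X ^ (1 / (k : ℝ)) := by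
      rw [hn]
      exact Nat.floor_le (by positivity)
    calc (F.card : ℝ) ≤ (n : ℝ) * n := by exact_mod_cast h1
      _ ≤ X ^ (1 / (k : ℝ)) * X ^ (1 / (k : ℝ)) := by gcongr
      _ = X ^ (2 / (k : ℝ)) := by
        rw [← Real.rpow_add (by linarith)]
        congr 1
        ring
  refine ⟨F.finite_toSet.subset hsub, le_trans ?_ hcard⟩
  have := Set.ncard_le_ncard hsub F.finite_toSet
  rw [Set.ncard_coe_finset] at this
  exact_mod_cast this

end Q265.LO
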