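import Mathlib
import Pool.Agent.Q265.MS.Crv

/-! # The curve isogenous to the Frey curve, with negative discriminant -/

set_option autoImplicit false

open Finset

namespace Q265.LO

/-- the equation has a rational point of order two -/
def HasTwo (W : WeierstrassCurve ℤ) : Prop :=
  ∃ r : ℚ, 4 * r ^ 3 + W.b₂ * r ^ 2 + 2 * W.b₄ * r + W.b₆ = 0

lemma isoA {a b : ℤ} (hcop : IsCoprime a b) (h16 : (16 : ℤ) ∣ a) (hb : b % 4 = 1) :
    ∃ W : WeierstrassCurve ℤ, IsCoprime W.c₄ W.Δ ∧ HasTwo W ∧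
      16 * W.Δ = -(a * b * (a + b) ^ 4) ∧ W.c₄ = a ^ 2 - 14 * a * b + b ^ 2 := by
  obtain ⟨α, rfl⟩ := h16
  obtain ⟨β, hβ⟩ : ∃ β : ℤ, b = 4 * β + 1 := ⟨b / 4, by omega⟩
  have hc4 : (⟨1, β + 8 * α, 0, α * (16 * α + 6 * b), α * b * (4 * α + b)⟩ :
      WeierstrassCurve ℤ).c₄ = (16 * α) ^ 2 - 14 * (16 * α) * b + b ^ 2 := by
    simp only [WeierstrassCurve.c₄, WeierstrassCurve.b₂, WeierstrassCurve.b₄]
    rw [hβ]
    ring
  have hΔ : (⟨1, β + 8 * α, 0, α * (16 * α + 6 * b), α * b * (4 * α + b)⟩ :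
      WeierstrassCurve ℤ).Δ = -(α * b * (16 * α + b) ^ 4) := by
    simp only [WeierstrassCurve.Δ, WeierstrassCurve.b₂, WeierstrassCurve.b₄,
      WeierstrassCurve.b₆, WeierstrassCurve.b₈]
    rw [hβ]
    ring
  refine ⟨⟨1, β + 8 * α, 0, α * (16 * α + 6 * b), α * b * (4 * α + b)⟩, ?_, ?_, ?_, hc4⟩
  · rw [hc4, hΔ]
    have h2 : IsCoprime (2 : ℤ) b := ⟨-2 * β, 1, by rw [hβ]; ring⟩
    have hαb : IsCoprime α b := hcop.of_mul_left_right
    have k1 : IsCoprime ((16 * α) ^ 2 - 14 * (16 * α) * b + b ^ 2) α := by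
      have : IsCoprime (b ^ 2 + α * (256 * α - 224 * b)) α :=
        IsCoprime.add_mul_left_left hαb.symm.pow_left _
      have e : (16 * α) ^ 2 - 14 * (16 * α) * b + b ^ 2 = b ^ 2 + α * (256 * α - 224 * b) := by ring
      rwa [e]
    have k2 : IsCoprime ((16 * α) ^ 2 - 14 * (16 * α) * b + b ^ 2) b := by
      have : IsCoprime ((16 * α) ^ 2 + b * (b - 224 * α)) b :=
        IsCoprime.add_mul_left_left hcop.pow_left _
      have e : (16 * α) ^ 2 - 14 * (16 * α) * b + b ^ 2 = (16 * α) ^ 2 + b * (b - 224 * α) := by ring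
      rwa [e]
    have k3 : IsCoprime ((16 * α) ^ 2 - 14 * (16 * α) * b + b ^ 2) (16 * α + b) := by
      have h5 : IsCoprime (16 * α + b) b := by
        have := IsCoprime.add_mul_left_left hcop 1
        rwa [mul_one] at this
      have h6 : IsCoprime (2 : ℤ) (16 * α + b) := by
        have := h2.add_mul_left_right (8 * α)
        have e : b + 2 * (8 * α) = 16 * α + b := by ring
        rwa [e] at this
      have h7 : IsCoprime ((16 : ℤ) * b ^ 2) (16 * α + b) := by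
        have e16 : (16 : ℤ) = 2 ^ 4 := by norm_num
        rw [e16]
        exact (h6.pow_left).mul_left h5.symm.pow_left
      have h8 : IsCoprime (16 * b ^ 2 + (16 * α + b) * (16 * α - 15 * b)) (16 * α + b) :=
        IsCoprime.add_mul_left_left h7 _
      have e : (16 * α) ^ 2 - 14 * (16 * α) * b + b ^ 2 =
          16 * b ^ 2 + (16 * α + b) * (16 * α - 15 * b) := by ring
      rwa [e]
    exact ((k1.mul_right k2).mul_right k3.pow_right).neg_right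
  · refine ⟨-(b : ℚ) / 4, ?_⟩
    simp only [WeierstrassCurve.b₂, WeierstrassCurve.b₄, WeierstrassCurve.b₆]
    rw [hβ]
    push_cast
    ring
  · rw [hΔ]
    ring

lemma isoC {c A : ℤ} (hcop : IsCoprime c A) (hA : A % 4 = 1) :
    ∃ W : WeierstrassCurve ℤ, IsCoprime W.c₄ W.Δ ∧ HasTwo W ∧
      W.Δ = c ^ 4 * (A ^ 2 - 64 * c ^ 2) ∧ W.c₄ = A ^ 2 - 48 * c ^ 2 := by
  obtain ⟨β, hβ⟩ : ∃ β : ℤ, A = 4 * β + 1 := ⟨A / 4, by omega⟩
  have hc4 : (⟨1, β, 0, c ^ 2, 0⟩ : WeierstrassCurve ℤ).c₄ = A ^ 2 - 48 * c ^ 2 := by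
    simp only [WeierstrassCurve.c₄, WeierstrassCurve.b₂, WeierstrassCurve.b₄]
    rw [hβ]
    ring
  have hΔ : (⟨1, β, 0, c ^ 2, 0⟩ : WeierstrassCurve ℤ).Δ = c ^ 4 * (A ^ 2 - 64 * c ^ 2) := by
    simp only [WeierstrassCurve.Δ, WeierstrassCurve.b₂, WeierstrassCurve.b₄,
      WeierstrassCurve.b₆, WeierstrassCurve.b₈]
    rw [hβ]
    ring
  refine ⟨⟨1, β, 0, c ^ 2, 0⟩, ?_, ⟨0, ?_⟩, hΔ, hc4⟩
  · rw [hc4, hΔ]
    have h2 : IsCoprime (2 : ℤ) A := ⟨-2 * β, 1, by rw [hβ]; ring⟩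
    have k1 : IsCoprime (A ^ 2 - 48 * c ^ 2) c := by
      have : IsCoprime (A ^ 2 + c * (-48 * c)) c :=
        IsCoprime.add_mul_left_left hcop.symm.pow_left _
      have e : A ^ 2 - 48 * c ^ 2 = A ^ 2 + c * (-48 * c) := by ring
      rwa [e]
    have k2 : IsCoprime (A ^ 2 - 48 * c ^ 2) (A ^ 2 - 64 * c ^ 2) := by
      have h3 : IsCoprime (16 * c ^ 2) (A ^ 2 - 64 * c ^ 2) := by
        have h4 : IsCoprime (2 : ℤ) (A ^ 2 - 64 * c ^ 2) := by
          have h5 : IsCoprime (2 : ℤ) (A ^ 2 + 2 * (-32 * c ^ 2)) :=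
            (h2.pow_right).add_mul_left_right _
          have e : A ^ 2 - 64 * c ^ 2 = A ^ 2 + 2 * (-32 * c ^ 2) := by ring
          rwa [e]
        have h6 : IsCoprime c (A ^ 2 - 64 * c ^ 2) := by
          have h5 : IsCoprime c (A ^ 2 + c * (-64 * c)) := (hcop.pow_right).add_mul_left_right _
          have e : A ^ 2 - 64 * c ^ 2 = A ^ 2 + c * (-64 * c) := by ring
          rwa [e]
        have e16 : (16 : ℤ) = 2 ^ 4 := by norm_num
        rw [e16]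
        exact (h4.pow_left).mul_left h6.pow_left
      have h4 : IsCoprime (16 * c ^ 2 + (A ^ 2 - 64 * c ^ 2) * 1) (A ^ 2 - 64 * c ^ 2) :=
        IsCoprime.add_mul_left_left h3 _
      have e : A ^ 2 - 48 * c ^ 2 = 16 * c ^ 2 + (A ^ 2 - 64 * c ^ 2) * 1 := by ring
      rwa [e]
    exact k1.pow_right.mul_right k2
  · simp only [WeierstrassCurve.b₆]
    push_cast
    ring

/-- the curve with `Δ < 0` attached to a triple -/
theorem iso_of {a b c : ℕ} (hcop : Nat.Coprime a b) (hc : a + b = c)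
    (h16 : 16 ∣ a ∨ 16 ∣ b ∨ 16 ∣ c) : ∃ W : WeierstrassCurve ℤ, IsCoprime W.c₄ W.Δ ∧ HasTwo W ∧
      ∃ l : ℤ, (l = 1 ∨ l = 16) ∧ 16 * l ^ 3 * W.Δ = -((a : ℤ) * b * (c : ℤ) ^ 4) ∧
        l * W.c₄ = (a : ℤ) ^ 2 - 14 * a * b + (b : ℤ) ^ 2 := by
  have hcz : (a : ℤ) + b = c := by exact_mod_cast hc
  have hcopz : IsCoprime (a : ℤ) (b : ℤ) := Nat.isCoprime_iff_coprime.2 hcop
  have hodd : ∀ p q : ℕ, Nat.Coprime p q → 16 ∣ p → q % 2 = 1 := by
    intro p q hpq hp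
    by_contra hq
    have h1 : 2 ∣ q := Nat.dvd_of_mod_eq_zero (by omega)
    have h2 : 2 ∣ p := (by norm_num : 2 ∣ 16).trans hp
    have := Nat.dvd_gcd h2 h1
    rw [hpq] at this
    omega
  rcases h16 with h | h | h
  · have hbo := hodd a b hcop h
    rcases (by omega : (b : ℤ) % 4 = 1 ∨ (-(b : ℤ)) % 4 = 1) with h4 | h4
    · obtain ⟨W, h1, h2, h3, h5⟩ := isoA hcopz (by exact_mod_cast h) h4
      exact ⟨W, h1, h2, 1, Or.inl rfl, by rw [← hcz]; linear_combination h3, by rw [h5]; ring⟩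
    · obtain ⟨W, h1, h2, h3, h5⟩ := isoA (a := -(a : ℤ)) (b := -(b : ℤ)) hcopz.neg_neg
        ((dvd_neg).2 (by exact_mod_cast h)) h4
      exact ⟨W, h1, h2, 1, Or.inl rfl, by rw [← hcz]; linear_combination h3, by rw [h5]; ring⟩
  · have hao := hodd b a hcop.symm h
    rcases (by omega : (a : ℤ) % 4 = 1 ∨ (-(a : ℤ)) % 4 = 1) with h4 | h4
    · obtain ⟨W, h1, h2, h3, h5⟩ := isoA hcopz.symm (by exact_mod_cast h) h4
      exact ⟨W, h1, h2, 1, Or.inl rfl, by rw [← hcz]; linear_combination h3, by rw [h5]; ring⟩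
    · obtain ⟨W, h1, h2, h3, h5⟩ := isoA (a := -(b : ℤ)) (b := -(a : ℤ)) hcopz.symm.neg_neg
        ((dvd_neg).2 (by exact_mod_cast h)) h4
      exact ⟨W, h1, h2, 1, Or.inl rfl, by rw [← hcz]; linear_combination h3, by rw [h5]; ring⟩
  · obtain ⟨c₀, hc₀⟩ := h
    have hca : Nat.Coprime c a := by
      rw [← hc]
      exact (Nat.coprime_add_self_left.2 hcop.symm) |> fun h => by rwa [add_comm] at h
    have hao := hodd c a hca ⟨c₀, hc₀⟩
    obtain ⟨A, hA⟩ : ∃ A : ℤ, A = a - 8 * c₀ := ⟨_, rfl⟩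
    have hb' : (b : ℤ) = 8 * c₀ - A := by omega
    have ha' : (a : ℤ) = 8 * c₀ + A := by omega
    have hcopA : IsCoprime (c₀ : ℤ) A := by
      have h1 : IsCoprime (c : ℤ) (a : ℤ) := Nat.isCoprime_iff_coprime.2 hca
      rw [hc₀] at h1
      push_cast at h1
      have h2 : IsCoprime (c₀ : ℤ) (a : ℤ) := h1.of_mul_left_right
      have h3 := h2.add_mul_left_right (-8)
      have e : (a : ℤ) + c₀ * -8 = A := by rw [hA]; ring
      rwa [e] at h3
    have hcc : (c : ℤ) = 16 * c₀ := by exact_mod_cast hc₀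
    rcases (by omega : A % 4 = 1 ∨ (-A) % 4 = 1) with h4 | h4
    · obtain ⟨W, h1, h2, h3, h5⟩ := isoC hcopA h4
      refine ⟨W, h1, h2, 16, Or.inr rfl, ?_, ?_⟩
      · rw [h3, hcc, ha', hb']; ring
      · rw [h5, ha', hb']; ring
    · obtain ⟨W, h1, h2, h3, h5⟩ := isoC hcopA.neg_right h4
      refine ⟨W, h1, h2, 16, Or.inr rfl, ?_, ?_⟩
      · rw [h3, hcc, ha', hb']; ring
      · rw [h5, ha', hb']; ring

end Q265.LO
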