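import Mathlib
import Pool.Agent.Q265.LO.Loc

/-! # Localisation, with triples one of whose members is divisible by `16` -/

set_option autoImplicit false

open Finset

namespace Q265.LO

open Q241.AC (R)

/-- a member is divisible by `16` -/
def D16 : Set (ℕ × ℕ × ℕ) := {t | 16 ∣ t.1 ∨ 16 ∣ t.2.1 ∨ 16 ∣ t.2.2}

lemma reach16 {u v δ : ℝ} (hu : 0 < u) (huv : u < v) (hv : v ≤ 1) (hδ : 0 < δ) (hδ1 : δ < 1)
    {k : ℕ} (hk : 1 ≤ k) : ∃ m N : ℕ, 4 ∣ m + 1 ∧ ∀ t : ℝ, δ ≤ t → t ≤ 1 - δ → ∃ i : ℕ, 1 ≤ i ∧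
      i ≤ N ∧ (1 - t ^ (m + 1)) ^ (k * i) ∈ Set.Ioo u v := by
  obtain ⟨δ', hδ'⟩ : ∃ δ' : ℝ, δ' = min (δ ^ 4) (1 - (1 - δ) ^ 4) := ⟨_, rfl⟩
  have h1 : 0 < δ ^ 4 := by positivity
  have h2 : (1 - δ) ^ 4 < 1 := pow_lt_one₀ (by linarith) (by linarith) (by norm_num)
  have hδ0 : 0 < δ' := by rw [hδ']; exact lt_min h1 (by linarith)
  have hδ1' : δ' < 1 := by
    rw [hδ']
    exact lt_of_le_of_lt (min_le_left _ _) (pow_lt_one₀ hδ.le hδ1 (by norm_num))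
  obtain ⟨m, N, h⟩ := reach hu huv hv hδ0 hδ1' hk
  refine ⟨4 * (m + 1) - 1, N, ⟨m + 1, by omega⟩, fun t ht1 ht2 => ?_⟩
  obtain ⟨i, hi1, hi2, hi3⟩ := h (t ^ 4) (by
      rw [hδ']
      exact (min_le_left _ _).trans (pow_le_pow_left₀ hδ.le ht1 4)) (by
      have h3 : t ^ 4 ≤ (1 - δ) ^ 4 := pow_le_pow_left₀ (by linarith) ht2 4
      have h4 : δ' ≤ 1 - (1 - δ) ^ 4 := by rw [hδ']; exact min_le_right _ _
      linarith)
  refine ⟨i, hi1, hi2, ?_⟩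
  have e : 4 * (m + 1) - 1 + 1 = 4 * (m + 1) := by omega
  rw [e, pow_mul t]
  exact hi3

/-- the divisibility of the new triple by `16` -/
lemma div16 {a c M n : ℕ} {a' b' : ℕ} (hM : 4 ∣ M) (hM0 : 1 ≤ M) (hn : 1 ≤ n)
    (ha' : a' = (c ^ M - a ^ M) ^ n) (hle : a ≤ c) (hsum : a' + b' = c ^ (M * n)) :
    16 ∣ a' ∨ 16 ∣ b' ∨ 16 ∣ c ^ (M * n) := by
  obtain ⟨j, rfl⟩ := hM
  have hj : 1 ≤ j := by omega
  have hodd : ∀ x : ℕ, x % 2 = 1 → x ^ (4 * j) % 16 = 1 := by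
    intro x hx
    have h1 : x ^ 4 % 16 = 1 := by
      have h2 : x % 16 = 1 ∨ x % 16 = 3 ∨ x % 16 = 5 ∨ x % 16 = 7 ∨ x % 16 = 9 ∨ x % 16 = 11 ∨
        x % 16 = 13 ∨ x % 16 = 15 := by omega
      rcases h2 with h | h | h | h | h | h | h | h <;> rw [Nat.pow_mod, h]
    rw [pow_mul, Nat.pow_mod, h1, one_pow, Nat.one_mod_eq_one.2 (by norm_num)]
  have heven : ∀ x : ℕ, x % 2 = 0 → ∀ e : ℕ, 4 ≤ e → 16 ∣ x ^ e := by
    intro x hx e he
    have h1 : 2 ∣ x := Nat.dvd_of_mod_eq_zero hx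
    calc 16 = 2 ^ 4 := by norm_num
      _ ∣ x ^ 4 := pow_dvd_pow_of_dvd h1 4
      _ ∣ x ^ e := pow_dvd_pow x he
  rcases Nat.mod_two_eq_zero_or_one c with hc | hc
  · right; right
    exact heven c hc _ (by nlinarith)
  · rcases Nat.mod_two_eq_zero_or_one a with ha | ha
    · right; left
      -- modulo `16`
      have h1 : 16 ∣ a ^ (4 * j) := heven a ha _ (by omega)
      have h2 : a ^ (4 * j) ≤ c ^ (4 * j) := Nat.pow_le_pow_left hle _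
      obtain ⟨q, hq⟩ := h1
      have h3 : c ^ (4 * j) - a ^ (4 * j) ≡ c ^ (4 * j) [MOD 16] := by
        have h4 : c ^ (4 * j) = (c ^ (4 * j) - a ^ (4 * j)) + 16 * q := by omega
        have h5 : (c ^ (4 * j) - a ^ (4 * j)) + 16 * q ≡ c ^ (4 * j) - a ^ (4 * j) [MOD 16] := by
          unfold Nat.ModEq
          omega
        rw [← h4] at h5
        exact h5.symm
      have h6 : a' ≡ c ^ (4 * j * n) [MOD 16] := by
        rw [ha', pow_mul c (4 * j) n]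
        exact h3.pow n
      have h7 : a' + b' ≡ a' [MOD 16] := by rw [hsum]; exact h6.symm
      unfold Nat.ModEq at h7
      omega
    · left
      have h1 := hodd a ha
      have h2 := hodd c hc
      have h3 : 16 ∣ c ^ (4 * j) - a ^ (4 * j) := by omega
      rw [ha']
      exact h3.trans (dvd_pow_self _ (by omega))

/-- from a small interval to the balanced triples -/
theorem interior16 {u v : ℝ} (hu : 0 < u) (huv : u < v) (hv : v ≤ 1) {k : ℕ} (hk : 1 ≤ k)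
    (h : On (Pw k ∩ Ratio (Set.Ioo u v) ∩ D16)) {δ : ℝ} (hδ : 0 < δ) :
    On (Ratio (Set.Icc δ (1 - δ))) := by
  rcases le_or_gt 1 δ with hδ1 | hδ1
  · -- the set is empty
    intro ε _
    refine ⟨0, ?_⟩
    rintro t ⟨ht, h1, h2⟩
    exfalso
    linarith
  obtain ⟨m, N, hm4, hmN⟩ := reach16 hu huv hv hδ hδ1 hk
  refine back ((m + 1) * (k * N)) ?_ ?_ h
  · rintro t ⟨⟨h1, h2, h3, h4⟩, -⟩
    omega
  · rintro ⟨a, b, c⟩ ⟨⟨h1, h2, h3, h4⟩, h5, h6⟩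
    simp only at h1 h2 h3 h4 h5 h6
    have hc0 : 0 < c := by omega
    have hcr : (0 : ℝ) < c := by exact_mod_cast hc0
    obtain ⟨i, hi1, hi2, hi3⟩ := hmN _ h5 h6
    obtain ⟨n, hn⟩ : ∃ n : ℕ, k * i = n + 1 := ⟨k * i - 1, by
      have : 1 ≤ k * i := Nat.one_le_iff_ne_zero.2 (by positivity)
      omega⟩
    obtain ⟨a', b', g1, g2, g3, g4, g5, g6⟩ := map2 m n h1 h2 h3 h4
    have hle : (m + 1) * (n + 1) ≤ (m + 1) * (k * N) := by
      rw [← hn]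
      exact Nat.mul_le_mul_left _ (Nat.mul_le_mul_left _ hi2)
    refine ⟨(a', b', c ^ ((m + 1) * (n + 1))), ⟨⟨?_, ⟨g1, g2, g3, g4⟩, ?_⟩, ?_⟩, (m + 1) * (n + 1),
      Nat.one_le_iff_ne_zero.2 (by positivity), hle, rfl, ?_⟩
    · refine ⟨(c ^ (m + 1) - a ^ (m + 1)) ^ i, c ^ ((m + 1) * i), ?_, ?_⟩
      · show a' = _
        rw [g5, ← pow_mul, mul_comm i k, hn]
      · show c ^ ((m + 1) * (n + 1)) = _
        rw [← pow_mul, ← hn]
        congr 1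
        ring
    · show ((a' : ℕ) : ℝ) / ((c ^ ((m + 1) * (n + 1)) : ℕ) : ℝ) ∈ Set.Ioo u v
      have hac : a ^ (m + 1) ≤ c ^ (m + 1) := Nat.pow_le_pow_left (by omega) _
      have e1 : ((a' : ℕ) : ℝ) = ((c : ℝ) ^ (m + 1) - (a : ℝ) ^ (m + 1)) ^ (n + 1) := by
        rw [g5]
        push_cast [Nat.cast_sub hac]
        rfl
      have e2 : ((a' : ℕ) : ℝ) / ((c ^ ((m + 1) * (n + 1)) : ℕ) : ℝ) =
          (1 - ((a : ℝ) / c) ^ (m + 1)) ^ (k * i) := by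
        rw [e1, hn]
        push_cast
        rw [pow_mul, ← div_pow, div_pow (a : ℝ), sub_div, div_self (by positivity)]
      rw [e2]
      exact hi3
    · exact div16 hm4 (by omega) (by omega) g5 (by omega) g4
    · show R (a' * b' * c ^ ((m + 1) * (n + 1))) ≤
        R (a * b * c) * ((m + 1) * (k * N) * c ^ ((m + 1) * (n + 1) - 1))
      exact g6.trans (Nat.mul_le_mul_left _ (Nat.mul_le_mul_right _ hle))

end Q265.LO
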