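import Mathlib
import Pool.Agent.Q265.LO.Iso
import Pool.Agent.Q265.LO.Loc16

/-! # Curves with the invariant in a given interval -/

set_option autoImplicit false

open Finset

namespace Q265.LO

open Q241.AC (R)

/-- the two functions giving the invariant -/
noncomputable def J1 (w : ℝ) : ℝ := 256 * (1 - w) ^ 3 / w ^ 2
noncomputable def J2 (w : ℝ) : ℝ := -(16 * (1 - 16 * w) ^ 3 / w)

lemma cont1 {s' : ℝ} (hs' : 0 < s') : ContinuousOn (fun s : ℝ => J1 (s * (1 - s))) (Set.Ioo (s' / 2) 1) := by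
  unfold J1
  apply ContinuousOn.div (by fun_prop) (by fun_prop)
  intro s hs
  have h1 : 0 < s := by linarith [hs.1]
  have h2 : 0 < 1 - s := by linarith [hs.2]
  positivity

lemma cont2 {s' : ℝ} (hs' : 0 < s') : ContinuousOn (fun s : ℝ => J2 (s * (1 - s))) (Set.Ioo (s' / 2) 1) := by
  unfold J2
  apply ContinuousOn.neg
  apply ContinuousOn.div (by fun_prop) (by fun_prop)
  intro s hs
  have h1 : 0 < s := by linarith [hs.1]
  have h2 : 0 < 1 - s := by linarith [hs.2]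
  positivity

/-- a continuous function taking a value of the open interval stays in it on a smaller interval -/
lemma nbh {f : ℝ → ℝ} {u v s₀ s' : ℝ} (hs' : 0 < s') (hf : ContinuousOn f (Set.Ioo (s' / 2) 1))
    (h1 : s' ≤ s₀) (h2 : s₀ ≤ 1 / 2) (h3 : f s₀ ∈ Set.Ioo u v) :
    ∃ s₁ s₂ : ℝ, 0 < s₁ ∧ s₁ < s₂ ∧ s₂ < 1 ∧ ∀ s ∈ Set.Ioo s₁ s₂, f s ∈ Set.Ioo u v := by
  have hmem : s₀ ∈ Set.Ioo (s' / 2) 1 := ⟨by linarith, by linarith⟩
  have hc : ContinuousAt f s₀ := hf.continuousAt (Ioo_mem_nhds hmem.1 hmem.2)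
  have hn : f ⁻¹' Set.Ioo u v ∈ nhds s₀ := hc.preimage_mem_nhds (Ioo_mem_nhds h3.1 h3.2)
  have hn2 := Filter.inter_mem hn (Ioo_mem_nhds hmem.1 hmem.2)
  rw [mem_nhds_iff_exists_Ioo_subset] at hn2
  obtain ⟨l, r, hlr, hsub⟩ := hn2
  refine ⟨max l (s' / 2), min r (3 / 4), ?_, ?_, ?_, ?_⟩
  · exact lt_max_of_lt_right (by linarith)
  · refine (max_lt hlr.1 hmem.1).trans (lt_min hlr.2 (by linarith))
  · exact lt_of_le_of_lt (min_le_right _ _) (by norm_num)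
  · intro s hs
    refine (hsub ⟨lt_of_le_of_lt (le_max_left _ _) hs.1, lt_of_lt_of_le hs.2 (min_le_left _ _)⟩).1

lemma exists_interval {u v : ℝ} (huv : u < v) : ∃ f : ℝ → ℝ, (f = J1 ∨ f = J2) ∧
    ∃ s₁ s₂ : ℝ, 0 < s₁ ∧ s₁ < s₂ ∧ s₂ < 1 ∧ ∀ s ∈ Set.Ioo s₁ s₂, f (s * (1 - s)) ∈ Set.Ioo u v := by
  have hhalf1 : J1 (1 / 2 * (1 - 1 / 2)) = 1728 := by unfold J1; norm_num
  have hhalf2 : J2 (1 / 2 * (1 - 1 / 2)) = 1728 := by unfold J2; norm_num
  -- a point different from `1728`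
  obtain ⟨j₀, hj, hne⟩ : ∃ j₀ ∈ Set.Ioo u v, j₀ ≠ 1728 := by
    by_cases h : (u + v) / 2 = 1728
    · exact ⟨(3 * u + v) / 4, ⟨by linarith, by linarith⟩, by
        intro h'
        linarith⟩
    · exact ⟨(u + v) / 2, ⟨by linarith, by linarith⟩, h⟩
  rcases lt_or_gt_of_ne hne with hlt | hgt
  · refine ⟨J2, Or.inr rfl, ?_⟩
    obtain ⟨s', hs'⟩ : ∃ s' : ℝ, s' = 1 / (|j₀| + 64) := ⟨_, rfl⟩
    have habs := abs_nonneg j₀
    have hs0 : 0 < s' := by rw [hs']; positivity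
    have hs1 : s' ≤ 1 / 64 := by
      rw [hs']
      exact one_div_le_one_div_of_le (by norm_num) (by linarith)
    have hw0 : 0 < s' * (1 - s') := mul_pos hs0 (by linarith)
    have hw1 : s' * (1 - s') ≤ s' := by nlinarith
    have hval : J2 (s' * (1 - s')) ≤ j₀ := by
      unfold J2
      rw [neg_le]
      rw [le_div_iff₀ hw0]
      have h1 : (1 / 2 : ℝ) ≤ 1 - 16 * (s' * (1 - s')) := by linarith
      have h2 : (1 / 8 : ℝ) ≤ (1 - 16 * (s' * (1 - s'))) ^ 3 := by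
        calc (1 / 8 : ℝ) = (1 / 2) ^ 3 := by norm_num
          _ ≤ _ := pow_le_pow_left₀ (by norm_num) h1 3
      have h3 : -j₀ * (s' * (1 - s')) ≤ |j₀| * s' := by
        calc -j₀ * (s' * (1 - s')) ≤ |j₀| * (s' * (1 - s')) :=
              mul_le_mul_of_nonneg_right (neg_le_abs j₀) hw0.le
          _ ≤ |j₀| * s' := mul_le_mul_of_nonneg_left hw1 habs
      have h4 : |j₀| * s' ≤ 1 := by
        rw [hs', mul_one_div, div_le_one (by positivity)]
        linarith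
      linarith
    have hcont : ContinuousOn (fun s : ℝ => J2 (s * (1 - s))) (Set.Icc s' (1 / 2)) :=
      (cont2 hs0).mono (fun s hs => ⟨by linarith [hs.1], by linarith [hs.2]⟩)
    have hivt := intermediate_value_Icc (by linarith : s' ≤ 1 / 2) hcont
    obtain ⟨s₀, hs₀, hs₀'⟩ := hivt ⟨hval, by
      show j₀ ≤ J2 (1 / 2 * (1 - 1 / 2))
      rw [hhalf2]
      exact hlt.le⟩
    exact nbh hs0 (cont2 hs0) hs₀.1 hs₀.2 (by simp only at hs₀' ⊢; rw [hs₀']; exact hj)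
  · refine ⟨J1, Or.inl rfl, ?_⟩
    have hj0 : 1728 < j₀ := hgt
    obtain ⟨s', hs'⟩ : ∃ s' : ℝ, s' = 1 / j₀ := ⟨_, rfl⟩
    have hs0 : 0 < s' := by rw [hs']; positivity
    have hs1 : s' ≤ 1 / 64 := by
      rw [hs']
      exact one_div_le_one_div_of_le (by norm_num) (by linarith)
    have hw0 : 0 < s' * (1 - s') := mul_pos hs0 (by linarith)
    have hw1 : s' * (1 - s') ≤ s' := by nlinarith
    have hval : j₀ ≤ J1 (s' * (1 - s')) := by
      unfold J1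
      rw [le_div_iff₀ (by positivity)]
      have h1 : (1 / 2 : ℝ) ≤ 1 - s' * (1 - s') := by linarith
      have h2 : (1 / 8 : ℝ) ≤ (1 - s' * (1 - s')) ^ 3 := by
        calc (1 / 8 : ℝ) = (1 / 2) ^ 3 := by norm_num
          _ ≤ _ := pow_le_pow_left₀ (by norm_num) h1 3
      have h3 : j₀ * (s' * (1 - s')) ^ 2 ≤ j₀ * s' ^ 2 := by gcongr
      have h4 : j₀ * s' ^ 2 = s' := by
        rw [hs']
        field_simp
      linarith
    have hcont : ContinuousOn (fun s : ℝ => J1 (s * (1 - s))) (Set.Icc s' (1 / 2)) :=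
      (cont1 hs0).mono (fun s hs => ⟨by linarith [hs.1], by linarith [hs.2]⟩)
    have hivt := intermediate_value_Icc' (by linarith : s' ≤ 1 / 2) hcont
    obtain ⟨s₀, hs₀, hs₀'⟩ := hivt ⟨by
      show J1 (1 / 2 * (1 - 1 / 2)) ≤ j₀
      rw [hhalf1]
      exact hj0.le, hval⟩
    exact nbh hs0 (cont1 hs0) hs₀.1 hs₀.2 (by simp only at hs₀' ⊢; rw [hs₀']; exact hj)

/-- the product of the primes dividing the discriminant -/
def Nc (W : WeierstrassCurve ℤ) : ℕ := ∏ p ∈ W.Δ.natAbs.primeFactors, p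

lemma Nc_le (W : WeierstrassCurve ℤ) (n : ℕ) (hn0 : n ≠ 0)
    (hn : ∀ p : ℕ, p.Prime → (p : ℤ) ∣ W.Δ → p ∣ n) : Nc W ≤ R n := by
  unfold Nc R
  apply prod_le_prod_of_subset_of_one_le'
  · intro p hp
    rw [Nat.mem_primeFactors] at hp ⊢
    exact ⟨hp.1, hn p hp.1 (Int.natCast_dvd.2 hp.2.1), hn0⟩
  · intro p hp _
    exact (Nat.prime_of_mem_primeFactors hp).one_lt.le

/-- the curves of the triples -/
theorem curve_j {f : ℝ → ℝ} (hf : f = J1 ∨ f = J2) {a b c : ℕ} (ha : 0 < a) (hb : 0 < b)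
    (hcop : Nat.Coprime a b) (hc : a + b = c) (h16 : 16 ∣ a ∨ 16 ∣ b ∨ 16 ∣ c) :
    ∃ W : WeierstrassCurve ℤ, W.Δ ≠ 0 ∧ IsCoprime W.c₄ W.Δ ∧ HasTwo W ∧
      (W.c₄ : ℝ) ^ 3 / W.Δ = f ((a : ℝ) / c * (1 - (a : ℝ) / c)) ∧
      ((a : ℝ) / c * (1 - (a : ℝ) / c)) ^ 2 * (c : ℝ) ^ 6 ≤ 65536 * |(W.Δ : ℝ)| ∧
      Nc W ≤ R (a * b * c) := by
  have hc0 : 0 < c := by omega
  have har : (0 : ℝ) < a := by exact_mod_cast ha
  have hbr : (0 : ℝ) < b := by exact_mod_cast hb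
  have hcr : (0 : ℝ) < c := by exact_mod_cast hc0
  have habr : (a : ℝ) + b = c := by exact_mod_cast hc
  obtain ⟨w, hw⟩ : ∃ w : ℝ, w = (a : ℝ) / c * (1 - (a : ℝ) / c) := ⟨_, rfl⟩
  have hwab : w * (c : ℝ) ^ 2 = a * b := by
    rw [hw]
    field_simp
    rw [← habr]
    ring
  have hw0 : 0 < w := by
    by_contra hcon
    push Not at hcon
    nlinarith [mul_pos har hbr, pow_pos hcr 2]
  have hw1 : w ≤ 1 := by
    rw [hw]
    have h1 : (a : ℝ) / c ≤ 1 := by rw [div_le_one hcr]; linarith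
    have h2 : 0 < (a : ℝ) / c := by positivity
    nlinarith
  rw [← hw]
  rcases hf with rfl | rfl
  · have hTri : Q241.AC.Tri (a : ℤ) (b : ℤ) (-(c : ℤ)) := by
      refine ⟨by rw [← hc]; push_cast; ring, by exact_mod_cast ha.ne', by exact_mod_cast hb.ne', ?_,
        Nat.isCoprime_iff_coprime.2 hcop⟩
      rw [neg_ne_zero]
      exact_mod_cast hc0.ne'
    obtain ⟨W, h1, h2, ⟨r₁, r₂, r₃, h3⟩, h4, h5⟩ := Q265.MS.curve_of hTri (by
      rcases h16 with h | h | h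
      · left; exact_mod_cast h
      · right; left; exact_mod_cast h
      · right; right; rw [dvd_neg]; exact_mod_cast h)
    have h4r : 256 * (W.Δ : ℝ) = ((a : ℝ) * b * c) ^ 2 := by
      have : 256 * (W.Δ : ℝ) = ((a : ℝ) * b * (-c)) ^ 2 := by exact_mod_cast h4
      rw [this]; ring
    have h5r : 2 * (W.c₄ : ℝ) = (a : ℝ) ^ 2 + (b : ℝ) ^ 2 + (c : ℝ) ^ 2 := by
      have : 2 * (W.c₄ : ℝ) = (a : ℝ) ^ 2 + (b : ℝ) ^ 2 + (-(c : ℝ)) ^ 2 := by exact_mod_cast h5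
      rw [this]; ring
    have hΔ : (W.Δ : ℝ) = w ^ 2 * (c : ℝ) ^ 6 / 256 := by
      have : 256 * (W.Δ : ℝ) = w ^ 2 * (c : ℝ) ^ 6 := by
        rw [h4r, ← hwab]
        ring
      linarith
    have hc4 : (W.c₄ : ℝ) = (1 - w) * (c : ℝ) ^ 2 := by
      have h6 : (a : ℝ) ^ 2 + (b : ℝ) ^ 2 = (c : ℝ) ^ 2 - 2 * (w * (c : ℝ) ^ 2) := by
        rw [hwab, ← habr]
        ring
      have : 2 * (W.c₄ : ℝ) = 2 * ((1 - w) * (c : ℝ) ^ 2) := by
        rw [h5r, h6]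
        ring
      linarith
    refine ⟨W, h1, h2, ⟨r₁, ?_⟩, ?_, ?_, ?_⟩
    · rw [h3 r₁]; ring
    · rw [hΔ, hc4]
      unfold J1
      field_simp
    · rw [hΔ, abs_of_nonneg (by positivity)]
      have : 0 ≤ w ^ 2 * (c : ℝ) ^ 6 := by positivity
      linarith
    · refine Nc_le W _ (by positivity) ?_
      intro p hp hd
      have hpp : Prime (p : ℤ) := Nat.prime_iff_prime_int.1 hp
      have h6 : (p : ℤ) ∣ (a : ℤ) * b * (-c) := by
        apply hpp.dvd_of_dvd_pow (n := 2)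
        rw [← h4]
        exact hd.mul_left _
      rw [mul_neg, dvd_neg] at h6
      exact_mod_cast h6
  · obtain ⟨W, h2, h3, l, hl, h4, h5⟩ := iso_of hcop hc h16
    have h4r : 16 * (l : ℝ) ^ 3 * (W.Δ : ℝ) = -((a : ℝ) * b * (c : ℝ) ^ 4) := by exact_mod_cast h4
    have h5r : (l : ℝ) * (W.c₄ : ℝ) = (a : ℝ) ^ 2 - 14 * a * b + (b : ℝ) ^ 2 := by exact_mod_cast h5
    have hl0 : (0 : ℝ) < l := by rcases hl with rfl | rfl <;> norm_num
    have hΔ' : 16 * (l : ℝ) ^ 3 * (W.Δ : ℝ) = -(w * (c : ℝ) ^ 6) := by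
      rw [h4r, ← hwab]
      ring
    have hΔ : (W.Δ : ℝ) = -(w * (c : ℝ) ^ 6) / (16 * (l : ℝ) ^ 3) := by
      rw [← hΔ']
      field_simp
    have hc4 : (W.c₄ : ℝ) = (1 - 16 * w) * (c : ℝ) ^ 2 / l := by
      have h6 : (a : ℝ) ^ 2 - 14 * a * b + (b : ℝ) ^ 2 = (1 - 16 * w) * (c : ℝ) ^ 2 := by
        have : (1 - 16 * w) * (c : ℝ) ^ 2 = (c : ℝ) ^ 2 - 16 * (w * (c : ℝ) ^ 2) := by ring
        rw [this, hwab, ← habr]
        ring
      rw [← h6, ← h5r]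
      field_simp
    have hne : W.Δ ≠ 0 := by
      intro h0
      rw [h0] at hΔ'
      push_cast at hΔ'
      have : 0 < w * (c : ℝ) ^ 6 := by positivity
      linarith
    refine ⟨W, hne, h2, h3, ?_, ?_, ?_⟩
    · rw [hΔ, hc4]
      unfold J2
      field_simp
    · have h6 : |(W.Δ : ℝ)| = w * (c : ℝ) ^ 6 / (16 * (l : ℝ) ^ 3) := by
        rw [hΔ, neg_div, abs_neg, abs_of_nonneg (by positivity)]
      rw [h6]
      have h7 : w ^ 2 * (c : ℝ) ^ 6 ≤ w * (c : ℝ) ^ 6 := by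
        have : w ^ 2 ≤ w := by nlinarith
        gcongr
      refine h7.trans ?_
      rw [mul_div_assoc', le_div_iff₀ (by positivity)]
      have h8 : 16 * (l : ℝ) ^ 3 ≤ 65536 := by rcases hl with rfl | rfl <;> norm_num
      have h9 : 0 ≤ w * (c : ℝ) ^ 6 := by positivity
      nlinarith
    · refine Nc_le W _ (by positivity) ?_
      intro p hp hd
      have h6 : (p : ℤ) ∣ (a : ℤ) * b * (c : ℤ) ^ 4 := by
        rw [← dvd_neg, ← h4]
        exact hd.mul_left _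
      have h7 : p ∣ a * b * c ^ 4 := by exact_mod_cast h6
      rcases (hp.dvd_mul).1 h7 with h8 | h8
      · exact h8.mul_right _
      · exact (hp.dvd_of_dvd_pow h8).mul_left _

end Q265.LO
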