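import Mathlib
import Pool.Agent.Q265.LO.Jf
import Pool.Agent.Q265.LO.Big
import Pool.Agent.Q265.MS.Bal

/-! # Localisation of Szpiro's conjecture -/

set_option autoImplicit false

open Finset

namespace Q265.LO

open Q241.AC (R)

/-- semistable equations with a rational point of order two and the invariant in `U` -/
def FamJ (U : Set ℝ) : Set (WeierstrassCurve ℤ) :=
  {W | W.Δ ≠ 0 ∧ IsCoprime W.c₄ W.Δ ∧ HasTwo W ∧ (W.c₄ : ℝ) ^ 3 / W.Δ ∈ U}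

/-- Szpiro's inequality on a set of equations -/
def SzOn (F : Set (WeierstrassCurve ℤ)) : Prop :=
  ∀ ε : ℝ, 0 < ε → ∃ C : ℝ, ∀ W ∈ F, |(W.Δ : ℝ)| ≤ C * (Nc W : ℝ) ^ (6 + ε)

theorem sparseJ {u v : ℝ} (huv : u < v) {η : ℝ} (hη : 0 < η) :
    ∃ T : Set (WeierstrassCurve ℤ), T ⊆ FamJ (Set.Ioo u v) ∧
    (∃ C : ℝ, ∀ X : ℝ, 1 ≤ X → {W ∈ T | |(W.Δ : ℝ)| ≤ X}.Finite ∧
      ({W ∈ T | |(W.Δ : ℝ)| ≤ X}.ncard : ℝ) ≤ C * X ^ η) ∧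
    (SzOn T → ∀ δ : ℝ, 0 < δ → On (Ratio (Set.Icc δ (1 - δ)))) := by
  classical
  obtain ⟨f, hf, s₁, s₂, hs1, hs12, hs2, hfs⟩ := exists_interval huv
  obtain ⟨k, hk⟩ : ∃ k : ℕ, 2 / η < k := exists_nat_gt _
  have hk0 : (0 : ℝ) < k := lt_trans (by positivity) hk
  have hk1 : 1 ≤ k := by
    have : 0 < k := by exact_mod_cast hk0
    omega
  have hkη : 2 / (k : ℝ) ≤ η := by
    rw [div_le_iff₀ hk0]
    rw [div_lt_iff₀ hη] at hk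
    linarith
  obtain ⟨S, hS⟩ : ∃ S : Set (ℕ × ℕ × ℕ), S = Pw k ∩ Ratio (Set.Ioo s₁ s₂) ∩ D16 := ⟨_, rfl⟩
  obtain ⟨w₀, hw₀⟩ : ∃ w₀ : ℝ, w₀ = s₁ * (1 - s₂) := ⟨_, rfl⟩
  have hw0 : 0 < w₀ := by rw [hw₀]; exact mul_pos hs1 (by linarith)
  have hex : ∀ t : ℕ × ℕ × ℕ, ∃ W : WeierstrassCurve ℤ, t ∈ S → W ∈ FamJ (Set.Ioo u v) ∧
      w₀ ^ 2 * (t.2.2 : ℝ) ^ 6 ≤ 65536 * |(W.Δ : ℝ)| ∧ Nc W ≤ R (t.1 * t.2.1 * t.2.2) := by
    rintro ⟨a, b, c⟩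
    by_cases h : (a, b, c) ∈ S
    · have h' := h
      rw [hS] at h'
      obtain ⟨⟨-, ⟨⟨h1, h2, h3, h4⟩, h5, h6⟩⟩, h7⟩ := h'
      simp only at h1 h2 h3 h4 h5 h6
      obtain ⟨W, g1, g2, g3, g4, g5, g6⟩ := curve_j hf h1 h2 h3 h4 h7
      refine ⟨W, fun _ => ⟨⟨g1, g2, g3, ?_⟩, ?_, g6⟩⟩
      · rw [g4]
        exact hfs _ ⟨h5, h6⟩
      · refine le_trans ?_ g5
        have h8 : w₀ ≤ (a : ℝ) / c * (1 - (a : ℝ) / c) := by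
          rw [hw₀]
          exact mul_le_mul h5.le (by linarith) (by linarith) (by linarith)
        show w₀ ^ 2 * (c : ℝ) ^ 6 ≤ _
        gcongr
    · exact ⟨⟨0, 0, 0, 0, 0⟩, fun h' => absurd h' h⟩
  choose g hg using hex
  refine ⟨g '' S, ?_, ⟨(65536 / w₀ ^ 2 + 1) ^ η, ?_⟩, ?_⟩
  · rintro W ⟨t, ht, rfl⟩
    exact (hg t ht).1
  · intro X hX
    have hY1 : 1 ≤ (65536 / w₀ ^ 2 + 1) * X := by
      have : 0 ≤ 65536 / w₀ ^ 2 := by positivity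
      nlinarith
    obtain ⟨hfin, hcard⟩ := count hk1 hY1
    have hsub : {W ∈ g '' S | |(W.Δ : ℝ)| ≤ X} ⊆
        g '' {t ∈ Pw k ∩ {t | IsTriple t} | (t.2.2 : ℝ) ≤ (65536 / w₀ ^ 2 + 1) * X} := by
      rintro W ⟨⟨t, ht, rfl⟩, hX'⟩
      refine ⟨t, ⟨?_, ?_⟩, rfl⟩
      · rw [hS] at ht
        exact ⟨ht.1.1, ht.1.2.1⟩
      · have h1 := (hg t ht).2.1
        rw [hS] at ht
        have h2 : (1 : ℝ) ≤ t.2.2 := by
          obtain ⟨⟨-, ⟨⟨q1, q2, q3, q4⟩, -⟩⟩, -⟩ := ht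
          have : 1 ≤ t.2.2 := by omega
          exact_mod_cast this
        have h3 : (t.2.2 : ℝ) ^ 6 ≤ 65536 / w₀ ^ 2 * X := by
          rw [div_mul_eq_mul_div, le_div_iff₀ (by positivity)]
          calc (t.2.2 : ℝ) ^ 6 * w₀ ^ 2 = w₀ ^ 2 * (t.2.2 : ℝ) ^ 6 := by ring
            _ ≤ 65536 * |((g t).Δ : ℝ)| := h1
            _ ≤ 65536 * X := by gcongr
        calc (t.2.2 : ℝ) = (t.2.2 : ℝ) ^ 1 := (pow_one _).symm
          _ ≤ (t.2.2 : ℝ) ^ 6 := pow_le_pow_right₀ h2 (by norm_num)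
          _ ≤ 65536 / w₀ ^ 2 * X := h3
          _ ≤ (65536 / w₀ ^ 2 + 1) * X := by
            have : 0 ≤ X := by linarith
            nlinarith
    refine ⟨(hfin.image g).subset hsub, ?_⟩
    have h1 := (Set.ncard_le_ncard hsub (hfin.image g)).trans (Set.ncard_image_le hfin)
    calc ({W ∈ g '' S | |(W.Δ : ℝ)| ≤ X}.ncard : ℝ) ≤
          ({t ∈ Pw k ∩ {t | IsTriple t} | (t.2.2 : ℝ) ≤ (65536 / w₀ ^ 2 + 1) * X}.ncard : ℝ) := by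
          exact_mod_cast h1
      _ ≤ ((65536 / w₀ ^ 2 + 1) * X) ^ (2 / (k : ℝ)) := hcard
      _ ≤ ((65536 / w₀ ^ 2 + 1) * X) ^ η := Real.rpow_le_rpow_of_exponent_le hY1 hkη
      _ = (65536 / w₀ ^ 2 + 1) ^ η * X ^ η := Real.mul_rpow (by positivity) (by linarith)
  · intro h δ hδ
    refine interior16 hs1 hs12 hs2.le hk1 ?_ hδ
    rw [← hS]
    intro ε hε
    obtain ⟨C, hC⟩ := h (6 * ε) (by positivity)
    obtain ⟨K, hK⟩ : ∃ K : ℝ, K = 65536 / w₀ ^ 2 * max C 1 := ⟨_, rfl⟩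
    have hC1 : (0 : ℝ) < max C 1 := lt_max_of_lt_right one_pos
    have hK0 : 0 < K := by rw [hK]; positivity
    refine ⟨K ^ (1 / 6 : ℝ), fun t ht => ?_⟩
    obtain ⟨-, h2, h3⟩ := hg t ht
    have h4 := hC (g t) ⟨t, ht, rfl⟩
    have hR1 : (1 : ℝ) ≤ R (t.1 * t.2.1 * t.2.2) := Q241.AC.R_one_le _
    have hR0 : (0 : ℝ) < R (t.1 * t.2.1 * t.2.2) := by linarith
    have h3r : (Nc (g t) : ℝ) ≤ R (t.1 * t.2.1 * t.2.2) := by exact_mod_cast h3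
    have h5 : (t.2.2 : ℝ) ^ 6 ≤ K * (R (t.1 * t.2.1 * t.2.2) : ℝ) ^ (6 + 6 * ε) := by
      have h6 : w₀ ^ 2 * (t.2.2 : ℝ) ^ 6 ≤
          65536 * (max C 1 * (R (t.1 * t.2.1 * t.2.2) : ℝ) ^ (6 + 6 * ε)) := by
        calc w₀ ^ 2 * (t.2.2 : ℝ) ^ 6 ≤ 65536 * |((g t).Δ : ℝ)| := h2
          _ ≤ 65536 * (C * (Nc (g t) : ℝ) ^ (6 + 6 * ε)) := by gcongr
          _ ≤ 65536 * (max C 1 * (Nc (g t) : ℝ) ^ (6 + 6 * ε)) := by
            gcongr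
            exact le_max_left _ _
          _ ≤ _ := by gcongr
      rw [hK, div_mul_eq_mul_div, div_mul_eq_mul_div, le_div_iff₀ (by positivity)]
      linarith
    calc (t.2.2 : ℝ) = ((t.2.2 : ℝ) ^ 6) ^ (1 / 6 : ℝ) := by
          rw [← Real.rpow_natCast, ← Real.rpow_mul (Nat.cast_nonneg _)]
          norm_num
      _ ≤ (K * (R (t.1 * t.2.1 * t.2.2) : ℝ) ^ (6 + 6 * ε)) ^ (1 / 6 : ℝ) :=
          Real.rpow_le_rpow (by positivity) h5 (by norm_num)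
      _ = K ^ (1 / 6 : ℝ) * (R (t.1 * t.2.1 * t.2.2) : ℝ) ^ (1 + ε) := by
          rw [Real.mul_rpow hK0.le (by positivity), ← Real.rpow_mul hR0.le]
          congr 2
          ring

/-- the conductor away from `6` of a semistable curve -/
lemma N6_le_Nc {W : WeierstrassCurve ℤ} (h : IsCoprime W.c₄ W.Δ) (h0 : W.Δ ≠ 0) :
    Q265.MS.N6 W ≤ Nc W := by
  have := Q265.MS.N6_le h W.Δ.natAbs (Int.natAbs_ne_zero.2 h0)
    (fun p _ _ hd => Int.natCast_dvd.1 hd)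
  exact this

end Q265.LO
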